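import Mathlib

set_option autoImplicit false

namespace Pool.Agent.Results.MP_3cee42_co.NotPlain

open scoped symmDiff

/-- Additive posets: an abelian group with a partial order `le` satisfying the two axioms. -/
structure AddPoset (A : Type) [AddCommGroup A] (le : A → A → Prop) : Prop where
  refl : ∀ a, le a a
  antisymm : ∀ a b, le a b → le b a → a = b
  trans : ∀ a b c, le a b → le b c → le a c
  down : ∀ a b c, le b a → le c a → le (b + c) a
  up : ∀ a b c, le a b → le a c → le a (a + b + c)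

abbrev V : Type := ZMod 2 × ZMod 2 × ZMod 2 × ZMod 2

def cd (a : V) : ℕ := a.1.val + 2 * a.2.1.val + 4 * a.2.2.1.val + 8 * a.2.2.2.val

def leb (a b : V) : Bool :=
  cd a == 0 || cd a == cd b || [18, 50, 92, 156, 78, 174, 109, 189, 127, 143].contains (16 * cd a + cd b)

theorem ap : AddPoset V fun a b => leb a b = true :=
  ⟨by decide +kernel, by decide +kernel, by decide +kernel, by decide +kernel, by decide +kernel⟩

theorem key : ∀ s : Bool × Bool × Bool × Bool, s.1 = true → ∃ a b : V, leb a b = true ∧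
    ((a.1 == 1 && s.1) ^^ (a.2.1 == 1 && s.2.1) ^^ (a.2.2.1 == 1 && s.2.2.1) ^^ (a.2.2.2 == 1 && s.2.2.2)) = true ∧
    ((b.1 == 1 && s.1) ^^ (b.2.1 == 1 && s.2.1) ^^ (b.2.2.1 == 1 && s.2.2.1) ^^ (b.2.2.2 == 1 && s.2.2.2)) = false := by
  decide +kernel

theorem result : ∃ (A : Type) (_ : AddCommGroup A) (le : A → A → Prop), Finite A ∧ AddPoset A le ∧
    ∀ I : Type, ¬ ∃ φ : A → Set I, Function.Injective φ ∧ (∀ a b, φ (a + b) = φ a ∆ φ b) ∧
      ∀ a b, le a b → φ a ⊆ φ b := by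
  classical
  refine ⟨V, inferInstance, _, inferInstance, ap, fun I ⟨φ, h1, h2, h3⟩ => ?_⟩
  have h0 : φ 0 = ∅ := by simpa using h2 0 0
  obtain ⟨i, hi⟩ : (φ (1, 0, 0, 0)).Nonempty := by
    rw [Set.nonempty_iff_ne_empty, ← h0]
    exact fun h => absurd (h1 h) (by decide)
  let s : V → Bool := fun a => decide (i ∈ φ a)
  have hs : ∀ a b, s (a + b) = (s a ^^ s b) := fun a b => by
    simp only [s, h2, Set.mem_symmDiff]
    by_cases h : i ∈ φ a <;> by_cases h' : i ∈ φ b <;> simp [h, h']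
  have hs0 : s 0 = false := by simp [s, h0]
  have hm : ∀ (c : ZMod 2) (e : V), s (c • e) = (c == 1 && s e) := fun c e => by
    have : c = 0 ∨ c = 1 := by revert c; decide
    rcases this with rfl | rfl
    · rw [zero_smul, hs0]; rfl
    · rw [one_smul]; simp
  have hv : ∀ a : V, s a = ((a.1 == 1 && s (1, 0, 0, 0)) ^^ (a.2.1 == 1 && s (0, 1, 0, 0)) ^^
      (a.2.2.1 == 1 && s (0, 0, 1, 0)) ^^ (a.2.2.2 == 1 && s (0, 0, 0, 1))) := fun a => by
    rw [← hm, ← hm, ← hm, ← hm, ← hs, ← hs, ← hs]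
    congr 1
    ext <;> simp
  obtain ⟨a, b, hab, ha, hb⟩ := key (s (1, 0, 0, 0), s (0, 1, 0, 0), s (0, 0, 1, 0), s (0, 0, 0, 1))
    (by simpa [s] using hi)
  dsimp only at ha hb
  rw [← hv] at ha hb
  simp only [s, decide_eq_true_eq, decide_eq_false_iff_not] at ha hb
  exact hb (h3 a b hab ha)

end Pool.Agent.Results.MP_3cee42_co.NotPlain
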